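import Mathlib

/-!
# The k-dimensional Weisfeiler-Leman method
-/

namespace Pool.Agent.H382Z.WL

/-- The data a colour of a `k`-tuple encodes after `t` rounds. -/
def Colour (k : ℕ) : ℕ → Type
  | 0 => Fin k → Fin k → Prop × Prop
  | t + 1 => Colour k t × Multiset (Fin k → Colour k t)

/-- The colour of the `k`-tuple `S` of vertices of `G` after `t` rounds of the `k`-dimensional
Weisfeiler-Leman method.  Round `0` records, for all `i, j`, whether `S i = S j` and whether
`S i` is adjacent to `S j`.  Round `t + 1` records the old colour together with the multiset, over
all vertices `x`, of the list of old colours of the `k` tuples obtained from `S` by replacing one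
coordinate by `x`. -/
def colour {V : Type} [Fintype V] (G : SimpleGraph V) (k : ℕ) :
    (t : ℕ) → (Fin k → V) → Colour k t
  | 0 => fun S => fun i j => (S i = S j, G.Adj (S i) (S j))
  | t + 1 => fun S =>
      (colour G k t S,
        (Finset.univ : Finset V).val.map
          (fun x => fun i => colour G k t (Function.update S i x)))

/-- The `k`-dimensional Weisfeiler-Leman method does not distinguish `G` and `H`: one bijection
between the `k`-tuples of vertices of `G` and of `H` preserves the colour after every round. -/
def WLEq (k : ℕ) {V W : Type} [Fintype V] [Fintype W] (G : SimpleGraph V) (H : SimpleGraph W) :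
    Prop :=
  ∃ e : (Fin k → V) ≃ (Fin k → W), ∀ (t : ℕ) (S : Fin k → V), colour G k t S = colour H k t (e S)

end Pool.Agent.H382Z.WL
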