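import Pool.Agent.H382Z.WL.Net

/-!
# Translation nets from modules with square-zero operators
-/

set_option linter.unusedSectionVars false

namespace Pool.Agent.H382Z.WL

open Finset Module

section ModNet

variable {F M J : Type} [Field F] [AddCommGroup M] [Module F M]

/-- The net attached to the operators `lam j + N j`. -/
def modNet (lam : J → F) (N : J → M →ₗ[F] M) : Option J → AddSubgroup (M × M)
  | none => (LinearMap.ker (LinearMap.fst F M M)).toAddSubgroup
  | some j => (LinearMap.graph (lam j • LinearMap.id + N j)).toAddSubgroup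

lemma mem_modNet_none (lam : J → F) (N : J → M →ₗ[F] M) (x : M × M) :
    x ∈ modNet lam N none ↔ x.1 = 0 := by simp [modNet]

lemma mem_modNet_some (lam : J → F) (N : J → M →ₗ[F] M) (j : J) (x : M × M) :
    x ∈ modNet lam N (some j) ↔ x.2 = lam j • x.1 + N j x.1 := by simp [modNet]

theorem modNet_isNet (lam : J → F) (N : J → M →ₗ[F] M) (hl : Function.Injective lam)
    (hN : ∀ i j x, N i (N j x) = 0) : IsNet (modNet lam N) (Nat.card M) where
  disj := by
    rintro (_ | i) (_ | j) hij ⟨u, v⟩ h1 h2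
    · exact absurd rfl hij
    · rw [mem_modNet_none] at h1; rw [mem_modNet_some] at h2
      simp only at h1 h2
      subst h1; simpa using h2
    · rw [mem_modNet_none] at h2; rw [mem_modNet_some] at h1
      simp only at h1 h2
      subst h2; simpa using h1
    · rw [mem_modNet_some] at h1 h2
      simp only at h1 h2
      have hc : lam i - lam j ≠ 0 := fun e => hij (by rw [hl (sub_eq_zero.1 e)])
      have e : (lam i - lam j) • u + (N i u - N j u) = 0 := by
        have := h1.symm.trans h2
        rw [sub_smul]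
        have h3 := sub_eq_zero.2 this
        rw [← h3]; abel
      have e2 : ∀ l, N l u = 0 := by
        intro l
        have := congrArg (N l) e
        simp only [map_add, map_smul, map_sub, hN, sub_self, add_zero, map_zero] at this
        exact (smul_eq_zero.1 this).resolve_left hc
      rw [e2, e2, sub_self, add_zero] at e
      have hu : u = 0 := (smul_eq_zero.1 e).resolve_left hc
      subst hu
      simpa using h1
  sup := by
    rintro (_ | i) (_ | j) hij ⟨u, v⟩
    · exact absurd rfl hij
    · refine ⟨(0, v - (lam j • u + N j u)), by simp [mem_modNet_none],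
        (u, lam j • u + N j u), by simp [mem_modNet_some], by simp⟩
    · refine ⟨(u, lam i • u + N i u), by simp [mem_modNet_some],
        (0, v - (lam i • u + N i u)), by simp [mem_modNet_none], by simp⟩
    · have hc : lam i - lam j ≠ 0 := fun e => hij (by rw [hl (sub_eq_zero.1 e)])
      set c := lam i - lam j with hcdef
      set w := v - (lam j • u + N j u) with hw
      set a := c⁻¹ • w - c⁻¹ • c⁻¹ • (N i w - N j w) with ha
      have key : c • a + (N i a - N j a) = w := by
        simp only [ha, smul_sub, map_sub, map_smul, hN, smul_smul, mul_inv_cancel₀ hc, one_smul,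
          ← mul_assoc, one_mul, smul_zero, sub_zero]
        abel
      refine ⟨(a, lam i • a + N i a), by simp [mem_modNet_some],
        (u - a, lam j • (u - a) + N j (u - a)), by simp [mem_modNet_some], ?_⟩
      ext
      · simp
      · simp only [Prod.snd_add, smul_sub, map_sub]
        rw [hcdef, sub_smul] at key
        have : v = w + (lam j • u + N j u) := by rw [hw]; abel
        rw [this, ← key]; abel
  card := by
    rintro (_ | i)
    · refine Nat.card_congr ⟨fun x => x.1.2, fun v => ⟨(0, v), by simp [mem_modNet_none]⟩, ?_, ?_⟩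
      · rintro ⟨⟨u, v⟩, h⟩
        rw [mem_modNet_none] at h
        simp only at h
        subst h; rfl
      · intro v; rfl
    · refine Nat.card_congr ⟨fun x => x.1.1,
        fun u => ⟨(u, lam i • u + N i u), by simp [mem_modNet_some]⟩, ?_, ?_⟩
      · rintro ⟨⟨u, v⟩, h⟩
        rw [mem_modNet_some] at h
        simp only at h
        subst h; rfl
      · intro v; rfl

/-- Intertwiners. -/
def inter {P Q : Type} [AddCommGroup P] [Module F P] [AddCommGroup Q] [Module F Q]
    (NP : J → P →ₗ[F] P) (NQ : J → Q →ₗ[F] Q) : Submodule F (P →ₗ[F] Q) where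
  carrier := {g | ∀ j x, g (NP j x) = NQ j (g x)}
  add_mem' := by
    intro a b ha hb j x
    simp [ha j x, hb j x]
  zero_mem' := by intro j x; simp
  smul_mem' := by
    intro c a ha j x
    simp [ha j x]

lemma mem_inter {P Q : Type} [AddCommGroup P] [Module F P] [AddCommGroup Q] [Module F Q]
    (NP : J → P →ₗ[F] P) (NQ : J → Q →ₗ[F] Q) (g : P →ₗ[F] Q) :
    g ∈ inter NP NQ ↔ ∀ j x, g (NP j x) = NQ j (g x) := Iff.rfl

lemma card_inter_le [Finite M] (lam : J → F) (N : J → M →ₗ[F] M) :
    Nat.card (inter N N) ≤ Nat.card (netEnd (modNet lam N)) := by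
  have : Finite (M × M →+ M × M) := Finite.of_injective _ DFunLike.coe_injective
  refine Nat.card_le_card_of_injective
    (fun g : inter N N => (⟨(g.1.prodMap g.1).toAddMonoidHom, ?_⟩ : netEnd (modNet lam N))) ?_
  · rintro (_ | j) ⟨u, v⟩ hx
    · rw [mem_modNet_none] at hx ⊢
      simp only at hx
      simp [hx]
    · rw [mem_modNet_some] at hx ⊢
      simp only at hx
      simp [hx, g.2 j u]
  · intro g g' h
    apply Subtype.ext
    ext x
    have := congrArg (fun (χ : netEnd (modNet lam N)) => (χ.1 (x, 0)).1) h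
    simpa using this

end ModNet

lemma card_netEnd_le {p : ℕ} [Fact p.Prime] {M J : Type} [AddCommGroup M] [Module (ZMod p) M]
    [Finite M] (lam : J → ZMod p) (N : J → M →ₗ[ZMod p] M) (j0 j1 : J) (h0 : lam j0 = 0)
    (h1 : lam j1 = 1) (n0 : N j0 = 0) (n1 : N j1 = 0) :
    Nat.card (netEnd (modNet lam N)) ≤ Nat.card (inter N N) := by
  have : Finite (M →ₗ[ZMod p] M) := Finite.of_injective _ DFunLike.coe_injective
  have key : ∀ φ : netEnd (modNet lam N), ∀ u v,
      φ.1 (u, v) = ((φ.1 (u, 0)).1, (φ.1 (v, 0)).1) := by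
    intro φ
    have a0 : ∀ u, (φ.1 (u, 0)).2 = 0 := by
      intro u
      have := φ.2 (some j0) (u, 0) (by simp [mem_modNet_some, h0, n0])
      simpa [mem_modNet_some, h0, n0] using this
    have a1 : ∀ v, (φ.1 (0, v)).1 = 0 := by
      intro v
      have := φ.2 none (0, v) (by simp [mem_modNet_none])
      simpa [mem_modNet_none] using this
    have a2 : ∀ u v, φ.1 (u, v) = φ.1 (u, 0) + φ.1 (0, v) := by
      intro u v; rw [← map_add]; simp
    have a3 : ∀ u, (φ.1 (0, u)).2 = (φ.1 (u, 0)).1 := by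
      intro u
      have := φ.2 (some j1) (u, u) (by simp [mem_modNet_some, h1, n1])
      simp only [mem_modNet_some, h1, n1, one_smul, LinearMap.zero_apply, add_zero] at this
      rw [a2] at this
      simpa [a0, a1] using this
    intro u v
    rw [a2]
    ext
    · simp [a1]
    · simp [a0, a3]
  let g : netEnd (modNet lam N) → M →ₗ[ZMod p] M := fun φ =>
    ((AddMonoidHom.fst M M).comp (φ.1.comp (AddMonoidHom.inl M M))).toZModLinearMap p
  have hg : ∀ φ u, g φ u = (φ.1 (u, 0)).1 := fun _ _ => rfl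
  refine Nat.card_le_card_of_injective (fun φ => (⟨g φ, ?_⟩ : inter N N)) ?_
  · intro j x
    have := φ.2 (some j) (x, lam j • x + N j x) (by simp [mem_modNet_some])
    rw [mem_modNet_some, key] at this
    simp only [← hg, map_add, map_smul] at this
    exact add_left_cancel this
  · intro φ ψ h
    apply Subtype.ext
    have h' : g φ = g ψ := congrArg Subtype.val h
    ext1 ⟨u, v⟩
    rw [key φ, key ψ, ← hg, ← hg, ← hg, ← hg, h']

section Ext

variable {F X Y J : Type} [Field F] [AddCommGroup X] [Module F X] [AddCommGroup Y] [Module F Y]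

/-- The operators of the extension of `Y` by `X` with cocycle `B`. -/
def extOp (NX : J → X →ₗ[F] X) (NY : J → Y →ₗ[F] Y) (B : J → Y →ₗ[F] X) (j : J) :
    X × Y →ₗ[F] X × Y :=
  LinearMap.prod (LinearMap.coprod (NX j) (B j)) (NY j ∘ₗ LinearMap.snd F X Y)

@[simp] lemma extOp_apply (NX : J → X →ₗ[F] X) (NY : J → Y →ₗ[F] Y) (B : J → Y →ₗ[F] X) (j : J)
    (x : X × Y) : extOp NX NY B j x = (NX j x.1 + B j x.2, NY j x.2) := rfl

variable [FiniteDimensional F X] [FiniteDimensional F Y]

lemma finrank_split_ge (NX : J → X →ₗ[F] X) (NY : J → Y →ₗ[F] Y) :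
    finrank F (inter NX NY) + (finrank F (inter NX NX) + finrank F (inter NY NY)) +
      finrank F (inter NY NX) ≤ finrank F (inter (extOp NX NY 0) (extOp NX NY 0)) := by
  let Φ : (inter NX NY × (inter NX NX × inter NY NY)) × inter NY NX →ₗ[F]
      inter (extOp NX NY 0) (extOp NX NY 0) :=
    { toFun := fun q => ⟨LinearMap.prod (LinearMap.coprod q.1.2.1.1 q.2.1)
          (LinearMap.coprod q.1.1.1 q.1.2.2.1), by
        rintro j ⟨x, y⟩
        simp [q.1.1.2 j x, q.1.2.1.2 j x, q.1.2.2.2 j y, q.2.2 j y]⟩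
      map_add' := by
        intro a b; apply Subtype.ext; ext1 <;> ext1 <;> simp
      map_smul' := by
        intro c a; apply Subtype.ext; ext1 <;> ext1 <;> simp }
  have hinj : Function.Injective Φ := by
    refine (injective_iff_map_eq_zero Φ).2 ?_
    rintro ⟨⟨a, b, c⟩, d⟩ h
    have h' := congrArg Subtype.val h
    have e1 : ∀ x y, (b.1 x + d.1 y, a.1 x + c.1 y) = (0, 0) := fun x y =>
      LinearMap.congr_fun h' (x, y)
    ext z
    · simpa using congrArg Prod.snd (e1 z 0)
    · simpa using congrArg Prod.fst (e1 z 0)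
    · simpa using congrArg Prod.snd (e1 0 z)
    · simpa using congrArg Prod.fst (e1 0 z)
  have := LinearMap.finrank_le_finrank_of_injective hinj
  simpa [finrank_prod] using this

lemma finrank_le_add {V A : Type} [AddCommGroup V] [Module F V] [AddCommGroup A] [Module F A]
    [FiniteDimensional F V] [FiniteDimensional F A] (E K : Submodule F V) (S : Submodule F A)
    (Φ : V →ₗ[F] A) (h1 : ∀ g ∈ E, Φ g ∈ S) (h2 : ∀ g ∈ E, Φ g = 0 → g ∈ K) :
    finrank F E ≤ finrank F S + finrank F K := by
  have a1 := LinearMap.finrank_range_add_finrank_ker (Φ ∘ₗ E.subtype)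
  have a2 : finrank F (LinearMap.range (Φ ∘ₗ E.subtype)) ≤ finrank F S := by
    apply Submodule.finrank_mono
    rintro _ ⟨g, rfl⟩
    exact h1 g.1 g.2
  have a3 : finrank F (LinearMap.ker (Φ ∘ₗ E.subtype)) ≤ finrank F K := by
    rw [← Submodule.finrank_map_subtype_eq]
    apply Submodule.finrank_mono
    rintro _ ⟨g, hg, rfl⟩
    exact h2 g.1 g.2 hg
  omega

lemma finrank_prod_sub {V A : Type} [AddCommGroup V] [Module F V] [AddCommGroup A] [Module F A]
    [FiniteDimensional F V] [FiniteDimensional F A] (E : Submodule F V) (S : Submodule F A) :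
    finrank F (E.prod S) = finrank F E + finrank F S := by
  rw [← finrank_prod]
  exact LinearEquiv.finrank_eq
    { toFun := fun q => (⟨q.1.1, q.2.1⟩, ⟨q.1.2, q.2.2⟩)
      invFun := fun q => ⟨(q.1.1, q.2.1), q.1.2, q.2.2⟩
      map_add' := fun _ _ => rfl
      map_smul' := fun _ _ => rfl
      left_inv := fun _ => rfl
      right_inv := fun _ => rfl }

lemma finrank_nonsplit_lt (NX : J → X →ₗ[F] X) (NY : J → Y →ₗ[F] Y) (B : J → Y →ₗ[F] X)
    (hns : ¬ ∃ s : Y →ₗ[F] X, ∀ j y, B j y + s (NY j y) = NX j (s y)) :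
    finrank F (inter (extOp NX NY B) (extOp NX NY B)) <
      finrank F (inter NX NY) + (finrank F (inter NX NX) + finrank F (inter NY NY)) +
      finrank F (inter NY NX) := by
  set E := inter (extOp NX NY B) (extOp NX NY B) with hE
  have dec : ∀ (g : X × Y →ₗ[F] X × Y) x y, g (x, y) = g (x, 0) + g (0, y) := by
    intro g x y; rw [← map_add]; simp
  let Φ1 : (X × Y →ₗ[F] X × Y) →ₗ[F] (X →ₗ[F] Y) :=
    { toFun := fun g => LinearMap.snd F X Y ∘ₗ g ∘ₗ LinearMap.inl F X Y
      map_add' := by intro a b; ext; simp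
      map_smul' := by intro c a; ext; simp }
  let Φ2 : (X × Y →ₗ[F] X × Y) →ₗ[F] (X →ₗ[F] X) × (Y →ₗ[F] Y) :=
    { toFun := fun g => (LinearMap.fst F X Y ∘ₗ g ∘ₗ LinearMap.inl F X Y,
        LinearMap.snd F X Y ∘ₗ g ∘ₗ LinearMap.inr F X Y)
      map_add' := by intro a b; ext <;> simp
      map_smul' := by intro c a; ext <;> simp }
  let Φ3 : (X × Y →ₗ[F] X × Y) →ₗ[F] (Y →ₗ[F] X) :=
    { toFun := fun g => LinearMap.fst F X Y ∘ₗ g ∘ₗ LinearMap.inr F X Y
      map_add' := by intro a b; ext; simp
      map_smul' := by intro c a; ext; simp }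
  let K1 := E ⊓ LinearMap.ker Φ1
  let K2 := K1 ⊓ LinearMap.ker Φ2
  have k1 : ∀ g ∈ K1, ∀ x, (g (x, 0)).2 = 0 := fun g hg x =>
    LinearMap.congr_fun (LinearMap.mem_ker.1 hg.2) x
  have k2 : ∀ g ∈ K2, (∀ x, (g (x, 0)).1 = 0) ∧ ∀ y, (g (0, y)).2 = 0 := by
    intro g hg
    have := LinearMap.mem_ker.1 hg.2
    exact ⟨fun x => LinearMap.congr_fun (congrArg (fun q => q.1) this) x,
      fun y => LinearMap.congr_fun (congrArg (fun q => q.2) this) y⟩
  have a1 : finrank F E ≤ finrank F (inter NX NY) + finrank F K1 := by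
    refine finrank_le_add E K1 (inter NX NY) Φ1 ?_ (fun g hg h => ⟨hg, h⟩)
    intro g hg j x
    have := congrArg Prod.snd (hg j (x, 0))
    simpa [Φ1] using this
  have a2 : finrank F K1 ≤ finrank F (K1.map Φ2) + finrank F K2 :=
    finrank_le_add K1 K2 (K1.map Φ2) Φ2 (fun g hg => ⟨g, hg, rfl⟩) (fun g hg h => ⟨hg, h⟩)
  have a3 : finrank F K2 ≤ finrank F (inter NY NX) +
      finrank F (⊥ : Submodule F (X × Y →ₗ[F] X × Y)) := by
    refine finrank_le_add K2 ⊥ (inter NY NX) Φ3 ?_ ?_
    · intro g hg j y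
      have := congrArg Prod.fst (hg.1.1 j (0, y))
      rw [extOp_apply, dec] at this
      simpa [(k2 g hg).1, (k2 g hg).2, Φ3] using this
    · intro g hg h
      have e : ∀ y, (g (0, y)).1 = 0 := fun y => LinearMap.congr_fun h y
      rw [Submodule.mem_bot]
      apply LinearMap.ext
      rintro ⟨x, y⟩
      rw [dec]
      ext
      · simp [e, (k2 g hg).1]
      · simp [k1 g hg.1, (k2 g hg).2]
  have a4 : K1.map Φ2 < (inter NX NX).prod (inter NY NY) := by
    refine lt_of_le_of_ne ?_ ?_
    · rintro _ ⟨g, hg, rfl⟩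
      refine ⟨fun j x => ?_, fun j y => ?_⟩
      · have := congrArg Prod.fst (hg.1 j (x, 0))
        simpa [k1 g hg, Φ2] using this
      · have := congrArg Prod.snd (hg.1 j (0, y))
        rw [extOp_apply, dec] at this
        simpa [k1 g hg, Φ2] using this
    · intro heq
      have : ((LinearMap.id, 0) : (X →ₗ[F] X) × (Y →ₗ[F] Y)) ∈ K1.map Φ2 := by
        rw [heq]; exact ⟨fun _ _ => rfl, (inter NY NY).zero_mem⟩
      obtain ⟨g, hg, hg'⟩ := this
      have e1 : ∀ x, (g (x, 0)).1 = x := fun x =>
        LinearMap.congr_fun (congrArg (fun q => q.1) hg') x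
      have e2 : ∀ y, (g (0, y)).2 = 0 := fun y =>
        LinearMap.congr_fun (congrArg (fun q => q.2) hg') y
      refine hns ⟨LinearMap.fst F X Y ∘ₗ g ∘ₗ LinearMap.inr F X Y, fun j y => ?_⟩
      have := congrArg Prod.fst (hg.1 j (0, y))
      rw [extOp_apply, dec] at this
      simpa [e1, e2] using this
  have a5 := Submodule.finrank_lt_finrank_of_lt a4
  rw [finrank_prod_sub] at a5
  rw [finrank_bot] at a3
  omega

end Ext

/-- The graphs of a non-split extension and of the split extension are not isomorphic. -/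
theorem not_iso {p : ℕ} [Fact p.Prime] {X Y J : Type} [AddCommGroup X] [Module (ZMod p) X]
    [AddCommGroup Y] [Module (ZMod p) Y] [Fintype X] [Fintype Y] [Fintype J]
    (lam : J → ZMod p) (hl : Function.Injective lam)
    (NX : J → X →ₗ[ZMod p] X) (NY : J → Y →ₗ[ZMod p] Y) (B : J → Y →ₗ[ZMod p] X)
    (j0 j1 : J) (h0 : lam j0 = 0) (h1 : lam j1 = 1)
    (n0 : extOp NX NY B j0 = 0) (n1 : extOp NX NY B j1 = 0)
    (sq : ∀ i j x, extOp NX NY B i (extOp NX NY B j x) = 0)
    (sq0 : ∀ i j x, extOp NX NY 0 i (extOp NX NY 0 j x) = 0)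
    (hN : Fintype.card (Option J) * Fintype.card (Option J) + 1 < Nat.card (X × Y))
    (hns : ¬ ∃ s : Y →ₗ[ZMod p] X, ∀ j y, B j y + s (NY j y) = NX j (s y)) :
    IsEmpty (netGraph (modNet lam (extOp NX NY B)) ≃g netGraph (modNet lam (extOp NX NY 0))) := by
  refine ⟨fun f => ?_⟩
  have hj : j0 ≠ j1 := by
    rintro rfl
    exact zero_ne_one (h0.symm.trans h1)
  have h3 : ∀ i : Option J, ∃ j l, i ≠ j ∧ i ≠ l ∧ j ≠ l := by
    rintro (_ | i)
    · exact ⟨some j0, some j1, by simp, by simp, by simpa using hj⟩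
    · by_cases hi : i = j0
      · exact ⟨none, some j1, by simp, by simpa [hi] using hj, by simp⟩
      · exact ⟨none, some j0, by simp, by simpa using hi, by simp⟩
  have a1 := netEnd_card_eq (modNet_isNet lam _ hl sq) (modNet_isNet lam _ hl sq0) hN h3 f
  have a2 := card_netEnd_le lam (extOp NX NY B) j0 j1 h0 h1 n0 n1
  have a3 := card_inter_le lam (extOp NX NY (0 : J → Y →ₗ[ZMod p] X))
  have a4 := (finrank_nonsplit_lt NX NY B hns).trans_le (finrank_split_ge NX NY)
  have : Finite (X × Y →ₗ[ZMod p] X × Y) := Finite.of_injective _ DFunLike.coe_injective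
  have a5 := a3.trans (a1.trans a2)
  rw [Module.natCard_eq_pow_finrank (K := ZMod p) (V := inter (extOp NX NY 0) (extOp NX NY 0)),
    Module.natCard_eq_pow_finrank (K := ZMod p) (V := inter (extOp NX NY B) (extOp NX NY B))]
    at a5
  have hp : 1 < Nat.card (ZMod p) := by
    rw [Nat.card_zmod]; exact (Fact.out : p.Prime).one_lt
  have := (Nat.pow_le_pow_iff_right hp).1 a5
  omega

end Pool.Agent.H382Z.WL
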