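import Pool.Agent.H382Z.WL.Defs
import Pool.Agent.H382Z.WL.Mod

/-!
# Local splittings give Weisfeiler-Leman equivalence
-/

set_option linter.unusedSectionVars false

namespace Pool.Agent.H382Z.WL

open Finset

variable {F X Y J : Type} [Field F] [AddCommGroup X] [Module F X] [AddCommGroup Y] [Module F Y]

/-- The shear along a linear map. -/
def shear (s : Y →ₗ[F] X) : X × Y →ₗ[F] X × Y :=
  LinearMap.prod (LinearMap.coprod LinearMap.id s) (LinearMap.snd F X Y)

@[simp] lemma shear_apply (s : Y →ₗ[F] X) (z : X × Y) : shear s z = (z.1 + s z.2, z.2) := rfl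

lemma shear_inj (s : Y →ₗ[F] X) : Function.Injective (shear s) := by
  rintro ⟨x, y⟩ ⟨x', y'⟩ h
  simp only [shear_apply, Prod.mk.injEq] at h
  obtain ⟨h1, rfl⟩ := h
  rw [add_right_cancel h1]

/-- The shear on vertices. -/
def shearV (s : Y →ₗ[F] X) : (X × Y) × (X × Y) →ₗ[F] (X × Y) × (X × Y) :=
  (shear s).prodMap (shear s)

lemma shearV_apply (s : Y →ₗ[F] X) (z : (X × Y) × (X × Y)) :
    shearV s z = (shear s z.1, shear s z.2) := rfl

lemma shearV_inj (s : Y →ₗ[F] X) : Function.Injective (shearV s) := by
  rintro ⟨x, y⟩ ⟨x', y'⟩ h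
  simp only [shearV_apply, Prod.mk.injEq] at h
  rw [shear_inj s h.1, shear_inj s h.2]

lemma shearV_congr {s s' : Y →ₗ[F] X} {z : (X × Y) × (X × Y)} (h1 : s' z.1.2 = s z.1.2)
    (h2 : s' z.2.2 = s z.2.2) : shearV s' z = shearV s z := by
  simp [shearV_apply, h1, h2]

lemma mem_shear_iff (lam : J → F) (NX : J → X →ₗ[F] X) (NY : J → Y →ₗ[F] Y)
    (B : J → Y →ₗ[F] X) (s : Y →ₗ[F] X) (d : (X × Y) × (X × Y))
    (hs : ∀ j, B j d.1.2 + s (NY j d.1.2) = NX j (s d.1.2)) (i : Option J) :
    d ∈ modNet lam (extOp NX NY B) i ↔ shearV s d ∈ modNet lam (extOp NX NY 0) i := by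
  rcases i with _ | j
  · rw [mem_modNet_none, mem_modNet_none, shearV_apply]
    exact ⟨fun h => by simp [h], fun h => shear_inj s (by simpa using h)⟩
  · rw [mem_modNet_some, mem_modNet_some, shearV_apply]
    have e : lam j • shear s d.1 + extOp NX NY 0 j (shear s d.1) =
        shear s (lam j • d.1 + extOp NX NY B j d.1) := by
      rw [map_add, map_smul]
      congr 1
      ext
      · simp [← hs j, add_assoc]
      · simp
    simp only [e]
    exact ⟨fun h => by rw [h], fun h => shear_inj s h⟩

/-- A strategy of local splittings for sets of at most `m` elements. -/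
structure Strategy (NX : J → X →ₗ[F] X) (NY : J → Y →ₗ[F] Y) (B : J → Y →ₗ[F] X) (m : ℕ)
    (Good : Finset Y → (Y →ₗ[F] X) → Prop) : Prop where
  split : ∀ S s, Good S s → ∀ y ∈ S, ∀ j, B j y + s (NY j y) = NX j (s y)
  mono : ∀ S S' s, S ⊆ S' → Good S' s → Good S s
  ext : ∀ S S' s, Good S s → S ⊆ S' → S'.card ≤ m → ∃ s', (∀ y ∈ S, s' y = s y) ∧ Good S' s'
  start : ∃ s, Good ∅ s

open Classical in
/-- The elements of `Y` under a tuple of vertices. -/
noncomputable def supp {k : ℕ} (T : Fin k → Y × Y) : Finset Y :=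
  univ.image (fun i => (T i).1) ∪ univ.image (fun i => (T i).2)

lemma supp_card {k : ℕ} (T : Fin k → Y × Y) : (supp T).card ≤ 2 * k := by
  classical
  unfold supp
  refine (Finset.card_union_le _ _).trans ?_
  have a := Finset.card_image_le (s := (univ : Finset (Fin k))) (f := fun i => (T i).1)
  have b := Finset.card_image_le (s := (univ : Finset (Fin k))) (f := fun i => (T i).2)
  simp only [card_univ, Fintype.card_fin] at a b
  omega

lemma mem_supp {k : ℕ} (T : Fin k → Y × Y) (y : Y) :
    y ∈ supp T ↔ (∃ i, (T i).1 = y) ∨ ∃ i, (T i).2 = y := by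
  simp [supp]

/-- The components in `Y` of a vertex. -/
def under (z : (X × Y) × (X × Y)) : Y × Y := (z.1.2, z.2.2)

variable [Fintype X] [Fintype Y]

theorem colour_eq (lam : J → F) {NX : J → X →ₗ[F] X} {NY : J → Y →ₗ[F] Y}
    {B : J → Y →ₗ[F] X} {m k : ℕ} {Good : Finset Y → (Y →ₗ[F] X) → Prop}
    (h : Strategy NX NY B m Good) (hm : 2 * k + 2 ≤ m) (t : ℕ) :
    ∀ (S : Fin k → (X × Y) × (X × Y)) (s : Y →ₗ[F] X), Good (supp (fun i => under (S i))) s →
      colour (netGraph (modNet lam (extOp NX NY B))) k t S =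
        colour (netGraph (modNet lam (extOp NX NY 0))) k t (fun i => shearV s (S i)) := by
  classical
  induction t with
  | zero =>
    intro S s hs
    funext i j
    refine Prod.ext (propext ?_) (propext ?_)
    · change S i = S j ↔ shearV s (S i) = shearV s (S j)
      exact (shearV_inj s).eq_iff.symm
    · have hgood : ∀ l, B l (S i - S j).1.2 + s (NY l (S i - S j).1.2) =
          NX l (s (S i - S j).1.2) := by
        intro l
        have a := h.split _ _ hs (S i).1.2 ((mem_supp _ _).2 (Or.inl ⟨i, rfl⟩)) l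
        have b := h.split _ _ hs (S j).1.2 ((mem_supp _ _).2 (Or.inl ⟨j, rfl⟩)) l
        simp only [Prod.fst_sub, Prod.snd_sub, map_sub]
        rw [← a, ← b]; abel
      change (S i ≠ S j ∧ ∃ l, S i - S j ∈ _) ↔
        (shearV s (S i) ≠ shearV s (S j) ∧ ∃ l, shearV s (S i) - shearV s (S j) ∈ _)
      rw [← map_sub, (shearV_inj s).ne_iff]
      exact and_congr Iff.rfl (exists_congr fun l => mem_shear_iff lam NX NY B s _ hgood l)
  | succ t ih =>
    intro S s hs
    have hex : ∀ y : Y × Y, ∃ s' : Y →ₗ[F] X,
        (∀ z ∈ supp (fun i => under (S i)), s' z = s z) ∧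
          Good (insert y.1 (insert y.2 (supp (fun i => under (S i))))) s' := by
      intro y
      refine h.ext _ _ s hs ?_ ?_
      · intro z hz; simp [hz]
      · have a := supp_card (fun i => under (S i))
        have b := Finset.card_insert_le y.2 (supp (fun i => under (S i)))
        have c := Finset.card_insert_le y.1 (insert y.2 (supp (fun i => under (S i))))
        omega
    choose s' hs1 hs2 using hex
    let σ : (X × Y) × (X × Y) → (X × Y) × (X × Y) := fun x => shearV (s' (under x)) x
    have hσ : Function.Injective σ := by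
      intro x x' hxx
      have e : under x = under x' := (congrArg under hxx : under (σ x) = under (σ x'))
      simp only [σ] at hxx
      rw [e] at hxx
      exact shearV_inj _ hxx
    let e := Equiv.ofBijective σ (Finite.injective_iff_bijective.1 hσ)
    refine Prod.ext (ih S s hs) ?_
    change Multiset.map _ _ = Multiset.map _ _
    conv_rhs => rw [← Multiset.map_univ_val_equiv e, Multiset.map_map]
    refine Multiset.map_congr rfl ?_
    intro x _
    funext i
    rw [ih (Function.update S i x) (s' (under x))]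
    · simp only [Function.comp]
      congr 1
      funext l
      by_cases hl : l = i
      · subst hl; simp [e, σ]
      · rw [Function.update_of_ne hl, Function.update_of_ne hl]
        exact shearV_congr (hs1 _ _ ((mem_supp _ _).2 (Or.inl ⟨l, rfl⟩)))
          (hs1 _ _ ((mem_supp _ _).2 (Or.inr ⟨l, rfl⟩)))
    · refine h.mono _ _ _ ?_ (hs2 (under x))
      intro z hz
      rw [mem_supp] at hz
      simp only [mem_insert, mem_supp]
      rcases hz with ⟨l, hl⟩ | ⟨l, hl⟩
      · by_cases hli : l = i
        · subst hli; left; simpa using hl.symm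
        · rw [Function.update_of_ne hli] at hl
          exact Or.inr (Or.inr (Or.inl ⟨l, hl⟩))
      · by_cases hli : l = i
        · subst hli; right; left; simpa using hl.symm
        · rw [Function.update_of_ne hli] at hl
          exact Or.inr (Or.inr (Or.inr ⟨l, hl⟩))

theorem wlEq_of_strategy (lam : J → F) {NX : J → X →ₗ[F] X} {NY : J → Y →ₗ[F] Y}
    {B : J → Y →ₗ[F] X} {m k : ℕ} {Good : Finset Y → (Y →ₗ[F] X) → Prop}
    (h : Strategy NX NY B m Good) (hm : 2 * k + 2 ≤ m) :
    WLEq k (netGraph (modNet lam (extOp NX NY B))) (netGraph (modNet lam (extOp NX NY 0))) := by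
  obtain ⟨s0, hs0⟩ := h.start
  have hex : ∀ T : Fin k → Y × Y, ∃ s', Good (supp T) s' := by
    intro T
    obtain ⟨s', _, hs'⟩ := h.ext ∅ (supp T) s0 hs0 (Finset.empty_subset _)
      ((supp_card T).trans (by omega))
    exact ⟨s', hs'⟩
  choose s hs using hex
  let σ : (Fin k → (X × Y) × (X × Y)) → (Fin k → (X × Y) × (X × Y)) :=
    fun S i => shearV (s (fun i => under (S i))) (S i)
  have hσ : Function.Injective σ := by
    intro S S' hSS
    have e : (fun i => under (S i)) = fun i => under (S' i) := by
      funext i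
      exact (congrArg under (congrFun hSS i) : under (σ S i) = under (σ S' i))
    funext i
    have := congrFun hSS i
    simp only [σ] at this
    rw [e] at this
    exact shearV_inj _ this
  exact ⟨Equiv.ofBijective σ (Finite.injective_iff_bijective.1 hσ),
    fun t S => colour_eq lam h hm t S _ (hs _)⟩

end Pool.Agent.H382Z.WL
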