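import Pool.Agent.H382Z.WL.Game

/-!
# Closures and local solvability
-/

set_option linter.unusedSectionVars false

namespace Pool.Agent.H382Z.WL

open Finset Module

section Basic

variable {F : Type} [Field F]

lemma exists_avoid [Fintype F] {H T I : Type} [AddCommGroup H] [Module F H] [Finite H]
    [AddCommGroup T] [Module F T] (s : Finset I) (f : I → H →ₗ[F] T) (D : ℕ)
    (hr : ∀ i ∈ s, D ≤ finrank F (LinearMap.range (f i))) (hc : s.card < Fintype.card F ^ D) :
    ∃ v, ∀ i ∈ s, f i v ≠ 0 := by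
  classical
  have := Fintype.ofFinite H
  by_contra hcon
  push Not at hcon
  have h1 : (univ : Finset H) ⊆ s.biUnion (fun i => univ.filter (fun v => f i v = 0)) := by
    intro v _
    obtain ⟨i, hi, hv⟩ := hcon v
    simp only [mem_biUnion, mem_filter, mem_univ, true_and]
    exact ⟨i, hi, hv⟩
  have h2 : ∀ i ∈ s, (univ.filter (fun v => f i v = 0)).card * Fintype.card F ^ D ≤
      Fintype.card H := by
    intro i hi
    have e1 : (univ.filter (fun v => f i v = 0)).card = Nat.card (LinearMap.ker (f i)) := by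
      rw [Nat.card_eq_fintype_card, Fintype.card_of_subtype]
      intro v; simp
    rw [e1, Module.natCard_eq_pow_finrank (K := F) (V := LinearMap.ker (f i)),
      Module.card_eq_pow_finrank (K := F) (V := H), Nat.card_eq_fintype_card, ← pow_add]
    apply Nat.pow_le_pow_right Fintype.card_pos
    have := LinearMap.finrank_range_add_finrank_ker (f i)
    have := hr i hi
    omega
  have h3 := (Finset.card_le_card h1).trans Finset.card_biUnion_le
  have h4 : (∑ i ∈ s, (univ.filter (fun v => f i v = 0)).card) * Fintype.card F ^ D ≤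
      s.card * Fintype.card H := by
    rw [Finset.sum_mul]
    exact (Finset.sum_le_sum h2).trans (by simp)
  rw [card_univ] at h3
  have h5 : 0 < Fintype.card H := Fintype.card_pos
  have h6 := (Nat.mul_le_mul_right (Fintype.card F ^ D) h3).trans h4
  rw [mul_comm] at h6
  have := Nat.le_of_mul_le_mul_right h6 h5
  omega

lemma exists_comp_eq {P Q L : Type} [AddCommGroup P] [Module F P] [AddCommGroup Q] [Module F Q]
    [AddCommGroup L] [Module F L] (f : P →ₗ[F] Q) (θ : P →ₗ[F] L)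
    (h : ∀ x, f x = 0 → θ x = 0) : ∃ γ : Q →ₗ[F] L, ∀ x, γ (f x) = θ x := by
  obtain ⟨ρ, hρ⟩ := LinearMap.exists_leftInverse_of_injective
    ((LinearMap.ker f).liftQ f le_rfl) (Submodule.ker_liftQ_eq_bot _ _ _ le_rfl)
  refine ⟨(LinearMap.ker f).liftQ θ (fun x hx => h x hx) ∘ₗ ρ, fun x => ?_⟩
  have := LinearMap.congr_fun hρ (Submodule.Quotient.mk x)
  simp only [LinearMap.coe_comp, Function.comp_apply, Submodule.liftQ_apply,
    LinearMap.id_coe, id_eq] at this
  simp [this]

end Basic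

section Closure

variable {F W Y : Type} [Field F] [AddCommGroup W] [Module F W] [AddCommGroup Y] [Module F Y]
  {r : ℕ}

/-- No tuple over `U` has small rank modulo `A` unless it lies in `A`. -/
def Closed (ν : (Fin r → W) →ₗ[F] Y) (h : ℕ) (U : Submodule F Y) (A : Submodule F W) : Prop :=
  ∀ τ, ν τ ∈ U → (∃ Z : Submodule F W, finrank F Z ≤ h ∧ ∀ j, τ j ∈ A ⊔ Z) → ∀ j, τ j ∈ A

/-- The closure. -/
def cl (ν : (Fin r → W) →ₗ[F] Y) (h : ℕ) (U : Submodule F Y) (W0 : Submodule F W) :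
    Submodule F W := sInf {A | W0 ≤ A ∧ Closed ν h U A}

lemma le_cl (ν : (Fin r → W) →ₗ[F] Y) (h : ℕ) (U : Submodule F Y) (W0 : Submodule F W) :
    W0 ≤ cl ν h U W0 := le_sInf fun _ hA => hA.1

lemma cl_le (ν : (Fin r → W) →ₗ[F] Y) (h : ℕ) (U : Submodule F Y) (W0 A : Submodule F W)
    (h1 : W0 ≤ A) (h2 : Closed ν h U A) : cl ν h U W0 ≤ A := sInf_le ⟨h1, h2⟩

lemma cl_closed (ν : (Fin r → W) →ₗ[F] Y) (h : ℕ) (U : Submodule F Y) (W0 : Submodule F W) :
    Closed ν h U (cl ν h U W0) := by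
  rintro τ hτ ⟨Z, hZ, hτZ⟩ j
  rw [cl, Submodule.mem_sInf]
  intro A hA
  exact hA.2 τ hτ ⟨Z, hZ, fun j => sup_le_sup_right (cl_le ν h U W0 A hA.1 hA.2) Z (hτZ j)⟩ j

lemma cl_mono (ν : (Fin r → W) →ₗ[F] Y) (h : ℕ) {U U' : Submodule F Y} {W0 W0' : Submodule F W}
    (hU : U ≤ U') (hW : W0 ≤ W0') : cl ν h U W0 ≤ cl ν h U' W0' :=
  cl_le ν h U W0 _ (hW.trans (le_cl _ _ _ _))
    (fun τ hτ hZ => cl_closed ν h U' W0' τ (hU hτ) hZ)

/-- Tuples in `A` over `U`. -/
def Ct (ν : (Fin r → W) →ₗ[F] Y) (U : Submodule F Y) (A : Submodule F W) :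
    Submodule F (Fin r → W) := U.comap ν ⊓ Submodule.pi Set.univ (fun _ => A)

lemma mem_Ct (ν : (Fin r → W) →ₗ[F] Y) (U : Submodule F Y) (A : Submodule F W) (τ : Fin r → W) :
    τ ∈ Ct ν U A ↔ ν τ ∈ U ∧ ∀ j, τ j ∈ A := by
  simp [Ct, Submodule.mem_pi]

/-- The kernel of `ν` has no nonzero tuple of rank at most `e`. -/
def RankInj (ν : (Fin r → W) →ₗ[F] Y) (e : ℕ) : Prop :=
  ∀ A : Submodule F W, finrank F A ≤ e → ∀ τ, (∀ j, τ j ∈ A) → ν τ = 0 → τ = 0

variable [FiniteDimensional F W] [FiniteDimensional F Y]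

lemma finrank_Ct_le {ν : (Fin r → W) →ₗ[F] Y} {e : ℕ} (hν : RankInj ν e) (U : Submodule F Y)
    (A : Submodule F W) (hA : finrank F A ≤ e) : finrank F (Ct ν U A) ≤ finrank F U := by
  have := finrank_le_add (Ct ν U A) ⊥ U ν (fun g hg => ((mem_Ct _ _ _ _).1 hg).1)
    (fun g hg h0 => hν A hA g ((mem_Ct _ _ _ _).1 hg).2 h0)
  simpa using this

lemma exists_closed {ν : (Fin r → W) →ₗ[F] Y} {m h : ℕ} (hν : RankInj ν (m + h * (m + 1)))
    (U : Submodule F Y) (hU : finrank F U ≤ m) (n : ℕ) :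
    ∀ A : Submodule F W, m ≤ finrank F (Ct ν U A) + n →
      finrank F A ≤ m + h * finrank F (Ct ν U A) → finrank F (Ct ν U A) ≤ m →
      ∃ A', A ≤ A' ∧ Closed ν h U A' ∧ finrank F A' ≤ m + h * m := by
  have step : ∀ A : Submodule F W, finrank F A ≤ m + h * finrank F (Ct ν U A) →
      finrank F (Ct ν U A) ≤ m → ¬ Closed ν h U A →
      ∃ A', A ≤ A' ∧ finrank F (Ct ν U A) < finrank F (Ct ν U A') ∧
        finrank F A' ≤ m + h * finrank F (Ct ν U A') ∧ finrank F (Ct ν U A') ≤ m := by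
    intro A h1 h2 h3
    simp only [Closed, not_forall] at h3
    obtain ⟨τ, hτ, ⟨Z, hZ, hτZ⟩, j, hj⟩ := h3
    have a1 : finrank F (A ⊔ Z : Submodule F W) ≤ finrank F A + finrank F Z :=
      Submodule.finrank_add_le_finrank_add_finrank A Z
    have a2 : Ct ν U A < Ct ν U (A ⊔ Z) := by
      refine lt_of_le_of_ne ?_ ?_
      · intro σ hσ
        rw [mem_Ct] at hσ ⊢
        exact ⟨hσ.1, fun j => Submodule.mem_sup_left (hσ.2 j)⟩
      · intro heq
        have : τ ∈ Ct ν U A := by rw [heq, mem_Ct]; exact ⟨hτ, hτZ⟩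
        exact hj (((mem_Ct _ _ _ _).1 this).2 j)
    have a3 := Submodule.finrank_lt_finrank_of_lt a2
    have a4 : h * (finrank F (Ct ν U A) + 1) ≤ h * finrank F (Ct ν U (A ⊔ Z)) :=
      Nat.mul_le_mul_left h a3
    have a5 : h * finrank F (Ct ν U A) ≤ h * m := Nat.mul_le_mul_left h h2
    refine ⟨A ⊔ Z, le_sup_left, a3, by nlinarith, ?_⟩
    exact (finrank_Ct_le hν U _ (by nlinarith)).trans hU
  induction n with
  | zero =>
    intro A h0 h1 h2
    by_cases hc : Closed ν h U A
    · exact ⟨A, le_rfl, hc, h1.trans (by gcongr)⟩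
    · obtain ⟨A', _, b, _, d⟩ := step A h1 h2 hc
      omega
  | succ n ih =>
    intro A h0 h1 h2
    by_cases hc : Closed ν h U A
    · exact ⟨A, le_rfl, hc, h1.trans (by gcongr)⟩
    · obtain ⟨A', a, b, c, d⟩ := step A h1 h2 hc
      obtain ⟨A'', a', b', c'⟩ := ih A' (by omega) c d
      exact ⟨A'', a.trans a', b', c'⟩

lemma finrank_cl_le {ν : (Fin r → W) →ₗ[F] Y} {m h : ℕ} (hν : RankInj ν (m + h * (m + 1)))
    (U : Submodule F Y) (hU : finrank F U ≤ m) (W0 : Submodule F W) (hW : finrank F W0 ≤ m) :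
    finrank F (cl ν h U W0) ≤ m + h * m := by
  obtain ⟨A, a, b, c⟩ := exists_closed hν U hU m W0 (by omega) (by omega)
    ((finrank_Ct_le hν U W0 (by omega)).trans hU)
  exact (Submodule.finrank_mono (cl_le ν h U W0 A a b)).trans c

end Closure

section Solve

variable {F L : Type} [Field F] [Field L] [Algebra F L] {r : ℕ}

/-- Small matrices of linear forms that are invertible at some rational point are invertible
at `a`. -/
def Generic (F : Type) {L : Type} [Field F] [Field L] [Algebra F L] {r : ℕ} (a : Fin r → L)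
    (m : ℕ) : Prop :=
  ∀ t ≤ m, ∀ (c : Fin t → Fin t → Fin r → F) (α : Fin r → F),
    (∀ l i, ∑ j, c l i j * α j = if l = i then 1 else 0) →
    (Matrix.of fun l i => ∑ j, c l i j • a j).det ≠ 0

lemma local_solve [Fintype F] {Q : Type} [AddCommGroup Q] [Module F Q] [Finite Q]
    {a : Fin r → L} {m : ℕ} (ha : Generic F a m) (C : Submodule F (Fin r → Q))
    (hC : finrank F C ≤ m)
    (hrank : ∀ ρ ∈ C, ρ ≠ 0 → m < finrank F (Submodule.span F (Set.range ρ)))
    (η : (Fin r → Q) →ₗ[F] L) :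
    ∃ χ : Q →ₗ[F] L, ∀ ρ ∈ C, ∑ j, a j * χ (ρ j) = η ρ := by
  classical
  have := Fintype.ofFinite Q
  obtain ⟨α, hα⟩ := exists_avoid (F := F) (univ.filter (fun ρ : Fin r → Q => ρ ∈ C ∧ ρ ≠ 0))
    (fun ρ => Fintype.linearCombination F ρ) (m + 1) (by
      intro ρ hρ
      simp only [mem_filter, mem_univ, true_and] at hρ
      rw [Fintype.range_linearCombination]
      exact hrank ρ hρ.1 hρ.2) (by
      have e1 : (univ.filter (fun ρ : Fin r → Q => ρ ∈ C)).card = Nat.card C := by
        rw [Nat.card_eq_fintype_card, Fintype.card_of_subtype]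
        intro v; simp
      have e2 : (univ.filter (fun ρ : Fin r → Q => ρ ∈ C ∧ ρ ≠ 0)).card ≤
          (univ.filter (fun ρ : Fin r → Q => ρ ∈ C)).card :=
        Finset.card_le_card (fun ρ hρ => by
          simp only [mem_filter, mem_univ, true_and] at hρ ⊢; exact hρ.1)
      rw [e1, Module.natCard_eq_pow_finrank (K := F) (V := C), Nat.card_eq_fintype_card] at e2
      exact e2.trans_lt (Nat.pow_lt_pow_right Fintype.one_lt_card (by omega)))
  let κ : C →ₗ[F] Q :=
    { toFun := fun ρ => ∑ j, α j • ρ.1 j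
      map_add' := by intro x y; simp [Finset.sum_add_distrib]
      map_smul' := by intro c x; simp [Finset.smul_sum, smul_comm c] }
  have hκ : LinearMap.ker κ = ⊥ := by
    rw [LinearMap.ker_eq_bot']
    intro ρ hρ
    by_contra hne
    refine hα ρ.1 (by simp only [mem_filter, mem_univ, true_and]
                      exact ⟨ρ.2, fun e => hne (Subtype.ext e)⟩) ?_
    rw [Fintype.linearCombination_apply]; exact hρ
  obtain ⟨μ, hμ⟩ := LinearMap.exists_leftInverse_of_injective κ hκ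
  let b := Module.finBasis F C
  let c : Fin (finrank F C) → Fin (finrank F C) → Fin r → F :=
    fun l i j => b.repr (μ ((b l).1 j)) i
  have hdet := ha _ hC c α (by
    intro l i
    have e : μ (κ (b l)) = b l := LinearMap.congr_fun hμ (b l)
    have e2 : b.repr (μ (κ (b l))) i = ∑ j, c l i j * α j := by
      simp [κ, c, map_sum, mul_comm]
    rw [← e2, e, b.repr_self, Finsupp.single_apply])
  set D : Matrix (Fin (finrank F C)) (Fin (finrank F C)) L :=
    Matrix.of fun l i => ∑ j, c l i j • a j with hD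
  let y := D⁻¹.mulVec (fun l => η (b l).1)
  have hy : D.mulVec y = fun l => η (b l).1 := by
    simp only [y]
    rw [Matrix.mulVec_mulVec, Matrix.mul_nonsing_inv _ (isUnit_iff_ne_zero.2 hdet),
      Matrix.one_mulVec]
  let χ : Q →ₗ[F] L := ∑ i, (b.coord i ∘ₗ μ).smulRight (y i)
  let G : C →ₗ[F] L :=
    { toFun := fun ρ => ∑ j, a j * χ (ρ.1 j)
      map_add' := by intro x y; simp [Finset.sum_add_distrib, mul_add]
      map_smul' := by intro c x; simp [Finset.smul_sum] }
  have hG : G = η ∘ₗ C.subtype := by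
    apply b.ext
    intro l
    have := congrFun hy l
    simp only [Matrix.mulVec, dotProduct, hD, Matrix.of_apply, Finset.sum_mul] at this
    change ∑ j, a j * χ ((b l).1 j) = η (b l).1
    rw [← this, Finset.sum_comm]
    refine Finset.sum_congr rfl fun j _ => ?_
    simp [χ, c, Finset.mul_sum]
  exact ⟨χ, fun ρ hρ => LinearMap.congr_fun hG ⟨ρ, hρ⟩⟩

end Solve

end Pool.Agent.H382Z.WL
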