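import Pool.Agent.H382Z.WL.Local

/-!
# The construction
-/

set_option linter.unusedSectionVars false

namespace Pool.Agent.H382Z.WL

open Finset Module

section Strat

variable {F W Y L : Type} [Field F] [AddCommGroup W] [Module F W] [AddCommGroup Y] [Module F Y]
  [Field L] [Algebra F L] {r : ℕ}

/-- Operators on `L × L`. -/
def opX (F : Type) {L : Type} [Field F] [Field L] [Algebra F L] {r : ℕ} (a : Fin r → L) :
    Option (Option (Fin r)) → L × L →ₗ[F] L × L
  | some (some j) => LinearMap.prod 0 (LinearMap.mulLeft F (a j) ∘ₗ LinearMap.fst F L L)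
  | _ => 0

/-- Operators from `W × Y` to `P × Q` given by a linear map on tuples. -/
def opT {P Q : Type} [AddCommGroup P] [Module F P] [AddCommGroup Q] [Module F Q]
    (ν : (Fin r → W) →ₗ[F] Q) : Option (Option (Fin r)) → W × Y →ₗ[F] P × Q
  | some (some j) => LinearMap.prod 0
      (ν ∘ₗ LinearMap.single F (fun _ => W) j ∘ₗ LinearMap.fst F W Y)
  | _ => 0

/-- Good local splittings. -/
def GoodAt (ν : (Fin r → W) →ₗ[F] Y) (a : Fin r → L) (β : (Fin r → W) →ₗ[F] L) (h : ℕ)
    (S : Finset (W × Y)) (s : W × Y →ₗ[F] L × L) : Prop :=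
  ∃ (φ : W →ₗ[F] L) (ψ : Y →ₗ[F] L), s = φ.prodMap ψ ∧
    ∀ τ : Fin r → W, (∀ j, τ j ∈ cl ν h (Submodule.span F (Prod.snd '' (S : Set (W × Y))))
      (Submodule.span F (Prod.fst '' (S : Set (W × Y))))) →
      β τ + ψ (ν τ) = ∑ j, a j * φ (τ j)

lemma finrank_span_image_le {A Z : Type} [AddCommGroup Z] [Module F Z] (S : Finset A)
    (f : A → Z) : finrank F (Submodule.span F (f '' (S : Set A))) ≤ S.card := by
  classical
  rw [← Finset.coe_image]
  exact (finrank_span_finset_le_card _).trans Finset.card_image_le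

variable [Fintype F] [Finite W] [Finite Y]

lemma extend_good {ν : (Fin r → W) →ₗ[F] Y} {a : Fin r → L} {β : (Fin r → W) →ₗ[F] L} {m : ℕ}
    (hν : RankInj ν (m + m * (m + 1))) (ha : Generic F a m) (U : Submodule F Y)
    (hU : finrank F U ≤ m) (A B : Submodule F W) (hA : Closed ν m U A)
    (hB : finrank F B ≤ m + m * m) (φ : W →ₗ[F] L) (ψ : Y →ₗ[F] L)
    (hg : ∀ τ : Fin r → W, (∀ j, τ j ∈ A) → β τ + ψ (ν τ) = ∑ j, a j * φ (τ j)) :
    ∃ (φ' : W →ₗ[F] L) (ψ' : Y →ₗ[F] L), (∀ w ∈ A, φ' w = φ w) ∧ (∀ y ∈ U, ψ' y = ψ y) ∧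
      ∀ τ : Fin r → W, (∀ j, τ j ∈ B) → β τ + ψ' (ν τ) = ∑ j, a j * φ' (τ j) := by
  have : Finite (W ⧸ A) := Finite.of_surjective _ (Submodule.mkQ_surjective A)
  let mu : (W →ₗ[F] L) → (Fin r → W) →ₗ[F] L := fun φ =>
    { toFun := fun τ => ∑ j, a j * φ (τ j)
      map_add' := by intro x y; simp [Finset.sum_add_distrib, mul_add]
      map_smul' := by intro c x; simp [Finset.smul_sum] }
  have hmu : ∀ φ τ, mu φ τ = ∑ j, a j * φ (τ j) := fun _ _ => rfl
  let q : (Fin r → W) →ₗ[F] (Fin r → W ⧸ A) := A.mkQ.compLeft (Fin r)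
  have hq : ∀ τ j, q τ j = A.mkQ (τ j) := fun _ _ => rfl
  let f := q ∘ₗ (Ct ν U B).subtype
  obtain ⟨η, hη⟩ := exists_comp_eq f ((β + ψ ∘ₗ ν - mu φ) ∘ₗ (Ct ν U B).subtype) (by
    intro τ hτ
    have : ∀ j, τ.1 j ∈ A := fun j => (Submodule.Quotient.mk_eq_zero A).1 (congrFun hτ j)
    have := hg τ.1 this
    simp [hmu, this])
  obtain ⟨σ, hσ⟩ := A.mkQ.exists_rightInverse_of_surjective (Submodule.range_mkQ A)
  obtain ⟨χ, hχ⟩ := local_solve ha (LinearMap.range f)
    ((LinearMap.finrank_range_le f).trans ((finrank_Ct_le hν U B (by nlinarith)).trans hU)) (by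
      rintro _ ⟨τ, rfl⟩ hne
      by_contra hle
      push Not at hle
      apply hne
      have hτ := (mem_Ct _ _ _ _).1 τ.2
      have := hA τ.1 hτ.1 ⟨(Submodule.span F (Set.range (f τ))).map σ,
        (Submodule.finrank_map_le _ _).trans hle, fun j => by
          have e : τ.1 j = (τ.1 j - σ (f τ j)) + σ (f τ j) := by abel
          rw [e]
          refine Submodule.add_mem_sup ?_ ⟨f τ j, Submodule.subset_span ⟨j, rfl⟩, rfl⟩
          rw [← Submodule.Quotient.mk_eq_zero, ← Submodule.mkQ_apply, map_sub]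
          have : A.mkQ (σ (f τ j)) = f τ j := LinearMap.congr_fun hσ (f τ j)
          rw [this]
          exact sub_self _⟩
      funext j
      exact (Submodule.Quotient.mk_eq_zero A).2 (this j)) η
  let φ' : W →ₗ[F] L := φ + χ ∘ₗ A.mkQ
  let TB : Submodule F (Fin r → W) := Submodule.pi Set.univ (fun _ => B)
  obtain ⟨γ, hγ⟩ := exists_comp_eq (U.mkQ ∘ₗ ν ∘ₗ TB.subtype)
    ((mu φ' - (β + ψ ∘ₗ ν)) ∘ₗ TB.subtype) (by
      intro τ hτ
      have h1 : ν τ.1 ∈ U := (Submodule.Quotient.mk_eq_zero U).1 hτ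
      have h2 : τ.1 ∈ Ct ν U B := (mem_Ct _ _ _ _).2 ⟨h1, fun j => τ.2 j trivial⟩
      have h3 := hχ (f ⟨τ.1, h2⟩) ⟨_, rfl⟩
      rw [hη] at h3
      have h4 : ∑ j, a j * χ (A.mkQ (τ.1 j)) = β τ.1 + ψ (ν τ.1) - ∑ j, a j * φ (τ.1 j) := h3
      change ∑ j, a j * (φ (τ.1 j) + χ (A.mkQ (τ.1 j))) - (β τ.1 + ψ (ν τ.1)) = 0
      simp only [mul_add, Finset.sum_add_distrib, h4]
      ring)
  refine ⟨φ', ψ + γ ∘ₗ U.mkQ, fun w hw => ?_, fun y hy => ?_, fun τ hτ => ?_⟩
  · simp [φ', (Submodule.Quotient.mk_eq_zero A).2 hw]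
  · simp [(Submodule.Quotient.mk_eq_zero U).2 hy]
  · have := hγ ⟨τ, fun j _ => hτ j⟩
    have h5 : γ (U.mkQ (ν τ)) = ∑ j, a j * φ' (τ j) - (β τ + ψ (ν τ)) := this
    change β τ + (ψ (ν τ) + γ (U.mkQ (ν τ))) = _
    rw [h5]; ring

theorem strategy {ν : (Fin r → W) →ₗ[F] Y} {a : Fin r → L} (β : (Fin r → W) →ₗ[F] L) {m : ℕ}
    (hν : RankInj ν (m + m * (m + 1))) (ha : Generic F a m) :
    Strategy (opX F a) (opT (Y := Y) (P := W) ν) (opT (Y := Y) (P := L) β) m
      (GoodAt ν a β m) where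
  split := by
    rintro S s ⟨φ, ψ, rfl, hg⟩ y hy (_ | _ | j)
    · simp [opX, opT]
    · simp [opX, opT]
    · have := hg (Pi.single j y.1) (by
        intro l
        by_cases hl : l = j
        · subst hl
          rw [Pi.single_eq_same]
          exact le_cl _ _ _ _ (Submodule.subset_span ⟨y, hy, rfl⟩)
        · rw [Pi.single_eq_of_ne hl]; exact Submodule.zero_mem _)
      rw [Finset.sum_eq_single j (by
        intro l _ hl; simp [Pi.single_eq_of_ne hl]) (by simp)] at this
      simpa [opX, opT] using this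
  mono := by
    rintro S S' s hSS ⟨φ, ψ, rfl, hg⟩
    refine ⟨φ, ψ, rfl, fun τ hτ => hg τ fun j => cl_mono ν m ?_ ?_ (hτ j)⟩
    · exact Submodule.span_mono (Set.image_mono hSS)
    · exact Submodule.span_mono (Set.image_mono hSS)
  ext := by
    rintro S S' s ⟨φ, ψ, rfl, hg⟩ hSS hc
    obtain ⟨φ', ψ', h1, h2, h3⟩ := extend_good hν ha
      (Submodule.span F (Prod.snd '' (S : Set (W × Y))))
      ((finrank_span_image_le S _).trans ((Finset.card_le_card hSS).trans hc)) _
      (cl ν m (Submodule.span F (Prod.snd '' (S' : Set (W × Y))))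
        (Submodule.span F (Prod.fst '' (S' : Set (W × Y))))) (cl_closed _ _ _ _)
      (finrank_cl_le hν _ ((finrank_span_image_le S' _).trans hc) _
        ((finrank_span_image_le S' _).trans hc)) φ ψ hg
    refine ⟨φ'.prodMap ψ', fun y hy => ?_, φ', ψ', rfl, h3⟩
    ext
    · exact h1 _ (le_cl _ _ _ _ (Submodule.subset_span ⟨y, hy, rfl⟩))
    · exact h2 _ (Submodule.subset_span ⟨y, hy, rfl⟩)
  start := by
    obtain ⟨φ', ψ', -, -, h3⟩ := extend_good (β := β) hν ha ⊥ (by simp) ⊥
      (cl ν m (Submodule.span F (Prod.snd '' ((∅ : Finset (W × Y)) : Set (W × Y))))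
        (Submodule.span F (Prod.fst '' ((∅ : Finset (W × Y)) : Set (W × Y))))) (by
          rintro τ hτ ⟨Z, hZ, hτZ⟩ j
          have := hν Z (by nlinarith) τ (by simpa using hτZ) (by simpa using hτ)
          simp [this])
      (finrank_cl_le hν _ ((finrank_span_image_le ∅ _).trans (by simp)) _
        ((finrank_span_image_le ∅ _).trans (by simp))) 0 0 (by
        intro τ hτ
        have : τ = 0 := funext fun j => by simpa using hτ j
        simp [this])
    exact ⟨φ'.prodMap ψ', φ', ψ', rfl, h3⟩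

end Strat

section Exist

variable (F : Type) [Field F] [Fintype F]

lemma exists_nu (r d e : ℕ) :
    ∃ ν : (Fin r → Fin d → F) →ₗ[F] (Fin (e * r + e * d + 1) → F), RankInj ν e := by
  classical
  have : Finite ((Fin r → Fin d → F) →ₗ[F] (Fin (e * r + e * d + 1) → F)) :=
    Finite.of_injective _ DFunLike.coe_injective
  let T : (Fin r → Fin e → F) × (Fin e → Fin d → F) → (Fin r → Fin d → F) :=
    fun q j => ∑ l, q.1 j l • q.2 l
  obtain ⟨ν, hν⟩ := exists_avoid (F := F) (univ.filter (fun q => T q ≠ 0))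
    (fun q => (LinearMap.applyₗ (T q) :
      ((Fin r → Fin d → F) →ₗ[F] (Fin (e * r + e * d + 1) → F)) →ₗ[F] _))
    (e * r + e * d + 1) (by
      intro q hq
      simp only [mem_filter, mem_univ, true_and] at hq
      have : LinearMap.range (LinearMap.applyₗ (T q) :
        ((Fin r → Fin d → F) →ₗ[F] (Fin (e * r + e * d + 1) → F)) →ₗ[F] _) = ⊤ := by
        rw [LinearMap.range_eq_top]
        intro y
        obtain ⟨g, hg⟩ := Module.Projective.exists_dual_eq_one F hq
        exact ⟨g.smulRight y, by simp [hg]⟩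
      rw [this]; simp) (by
      refine (Finset.card_filter_le _ _).trans_lt ?_
      simp only [card_univ, Fintype.card_prod, Fintype.card_pi, prod_const, Fintype.card_fin,
        ← pow_mul, ← pow_add]
      refine Nat.pow_lt_pow_right Fintype.one_lt_card ?_
      rw [mul_comm d e]; omega)
  refine ⟨ν, fun A hA τ hτ h0 => ?_⟩
  by_contra hne
  let b := Module.finBasis F A
  let z : Fin e → Fin d → F := fun l => if h : l.val < finrank F A then (b ⟨l, h⟩).1 else 0
  have hz : ∀ j, τ j ∈ Submodule.span F (Set.range z) := by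
    intro j
    have h1 : (⟨τ j, hτ j⟩ : A) ∈ Submodule.span F (Set.range b) := by rw [b.span_eq]; trivial
    have h2 := Submodule.mem_map_of_mem (f := A.subtype) h1
    rw [Submodule.map_span] at h2
    refine Submodule.span_mono ?_ h2
    rintro _ ⟨_, ⟨i, rfl⟩, rfl⟩
    exact ⟨⟨i.val, by omega⟩, by simp [z]⟩
  choose c hc using fun j => (Submodule.mem_span_range_iff_exists_fun F).1 (hz j)
  have hT : T (c, z) = τ := funext hc
  exact hν (c, z) (by simpa [hT] using hne) (by simpa [hT] using h0)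

lemma exists_generic (r m : ℕ) :
    ∃ (L : Type) (_ : Field L) (_ : Algebra F L) (_ : Finite L) (a : Fin r → L),
      Generic F a m := by
  classical
  let P : (Σ t : Fin (m + 1), (Fin t → Fin t → Fin r → F)) → MvPolynomial (Fin r) F :=
    fun c => (Matrix.of fun l i => ∑ j, c.2 l i j • MvPolynomial.X j).det
  let Q : MvPolynomial (Fin r) F := ∏ c ∈ univ.filter (fun c => P c ≠ 0), P c
  have hQ : Q ≠ 0 := Finset.prod_ne_zero_iff.2 fun c hc => (mem_filter.1 hc).2
  have hx : ∃ x : Fin r → AlgebraicClosure F, MvPolynomial.aeval x Q ≠ 0 := by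
    by_contra hcon
    push Not at hcon
    apply hQ
    apply MvPolynomial.map_injective (algebraMap F (AlgebraicClosure F))
      (algebraMap F (AlgebraicClosure F)).injective
    apply MvPolynomial.funext
    intro x
    rw [MvPolynomial.eval_map, ← MvPolynomial.aeval_def, hcon x]; simp
  obtain ⟨x, hx⟩ := hx
  let L := IntermediateField.adjoin F (Set.range x)
  have : FiniteDimensional F L :=
    IntermediateField.finiteDimensional_adjoin fun y _ => Algebra.IsIntegral.isIntegral y
  let a : Fin r → L := fun j => ⟨x j, IntermediateField.subset_adjoin _ _ ⟨j, rfl⟩⟩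
  refine ⟨L, inferInstance, inferInstance, Module.finite_of_finite F, a, ?_⟩
  intro t ht c α hc hdet
  have ev : ∀ {R : Type} [CommRing R] [Algebra F R] (y : Fin r → R),
      MvPolynomial.aeval y (P ⟨⟨t, by omega⟩, c⟩) =
        (Matrix.of fun l i => ∑ j, c l i j • y j).det := by
    intro R _ _ y
    simp only [P]
    rw [AlgHom.map_det]
    congr 1
    ext l i
    simp
  have hP : P ⟨⟨t, by omega⟩, c⟩ ≠ 0 := by
    intro h0
    have := ev α
    rw [h0, map_zero] at this
    have e : (Matrix.of fun l i => ∑ j, c l i j • α j) = 1 := by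
      ext l i
      simp [hc, Matrix.one_apply]
    rw [e, Matrix.det_one] at this
    exact zero_ne_one this
  apply hx
  simp only [Q, map_prod]
  refine Finset.prod_eq_zero (i := ⟨⟨t, by omega⟩, c⟩) (mem_filter.2 ⟨mem_univ _, hP⟩) ?_
  have e := MvPolynomial.comp_aeval_apply a L.val (P ⟨⟨t, by omega⟩, c⟩)
  rw [ev a, hdet, map_zero] at e
  exact e.symm

lemma exists_beta {L : Type} [Field L] [Algebra F L] [Finite L] {r d D : ℕ} (a : Fin r → L)
    (ν : (Fin r → Fin d → F) →ₗ[F] (Fin D → F)) (h : d + D < r * d) :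
    ∃ β : (Fin r → Fin d → F) →ₗ[F] L, ¬ ∃ (φ : (Fin d → F) →ₗ[F] L) (ψ : (Fin D → F) →ₗ[F] L),
      ∀ τ, β τ + ψ (ν τ) = ∑ j, a j * φ (τ j) := by
  by_contra hcon
  push Not at hcon
  let Ξ : ((Fin d → F) →ₗ[F] L) × ((Fin D → F) →ₗ[F] L) →ₗ[F] ((Fin r → Fin d → F) →ₗ[F] L) :=
    { toFun := fun q =>
        { toFun := fun τ => ∑ j, a j * q.1 (τ j) - q.2 (ν τ)
          map_add' := by
            intro x y; simp only [Pi.add_apply, map_add, mul_add, Finset.sum_add_distrib]; ring
          map_smul' := by intro c x; simp [Finset.smul_sum, smul_sub] }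
      map_add' := by
        intro x y; apply LinearMap.ext; intro τ
        simp only [Prod.fst_add, Prod.snd_add, LinearMap.add_apply, mul_add,
          Finset.sum_add_distrib, LinearMap.coe_mk, AddHom.coe_mk]
        ring
      map_smul' := by
        intro c x; apply LinearMap.ext; intro τ
        simp [Finset.smul_sum, smul_sub] }
  have hs : Function.Surjective Ξ := by
    intro β
    obtain ⟨φ, ψ, h⟩ := hcon β
    refine ⟨(φ, ψ), LinearMap.ext fun τ => ?_⟩
    change ∑ j, a j * φ (τ j) - ψ (ν τ) = β τ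
    rw [← h τ]; ring
  have h1 := LinearMap.finrank_le_finrank_of_surjective hs
  simp only [finrank_prod, finrank_linearMap, finrank_fintype_fun_eq_card, Fintype.card_fin,
    Module.finrank_pi_fintype, sum_const, card_univ, smul_eq_mul] at h1
  have h2 : 0 < finrank F L := finrank_pos
  nlinarith

end Exist

/-- Codes for the slopes. -/
def code {r : ℕ} : Option (Option (Fin r)) → ℕ
  | none => 0
  | some none => 1
  | some (some j) => j + 2

lemma code_inj {r : ℕ} : Function.Injective (code (r := r)) := by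
  rintro (_ | _ | i) (_ | _ | j) h <;> simp [code] at h ⊢
  exact Fin.ext h

lemma code_lt {r : ℕ} (i : Option (Option (Fin r))) : code i < r + 2 := by
  rcases i with _ | _ | i <;> simp [code]

open Classical in
theorem main (k : ℕ) : ∃ (V : Type) (_ : Fintype V) (G H : SimpleGraph V) (n κ l μ : ℕ),
    G.IsSRGWith n κ l μ ∧ H.IsSRGWith n κ l μ ∧ IsEmpty (G ≃g H) ∧ WLEq k G H := by
  set m := 2 * k + 2 with hm
  set e := m + m * (m + 1) with he
  set r := 2 * e + 2 with hr
  obtain ⟨p, hpr, hp⟩ := Nat.exists_infinite_primes (r + 3)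
  have : Fact p.Prime := ⟨hp⟩
  obtain ⟨ν, hν⟩ := exists_nu (ZMod p) r r e
  obtain ⟨L, _, _, _, a, ha⟩ := exists_generic (ZMod p) r m
  obtain ⟨β, hβ⟩ := exists_beta (ZMod p) a ν (by nlinarith)
  have := Fintype.ofFinite L
  let lam : Option (Option (Fin r)) → ZMod p := fun i => (code i : ℕ)
  have hl : Function.Injective lam := by
    intro i j hij
    apply code_inj
    have := congrArg ZMod.val hij
    simp only [lam] at this
    rwa [ZMod.val_natCast_of_lt (by have := code_lt i; omega),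
      ZMod.val_natCast_of_lt (by have := code_lt j; omega)] at this
  have sq : ∀ β' : (Fin r → Fin r → ZMod p) →ₗ[ZMod p] L, ∀ i j x,
      extOp (opX (ZMod p) a) (opT (P := Fin r → ZMod p) ν) (opT (P := L) β') i
        (extOp (opX (ZMod p) a) (opT (P := Fin r → ZMod p) ν) (opT (P := L) β') j x) = 0 := by
    rintro β' (_ | _ | i) (_ | _ | j) x <;> simp [opX, opT]
  have z0 : (opT (Y := Fin (e * r + e * r + 1) → ZMod p) (P := L)
      (0 : (Fin r → Fin r → ZMod p) →ₗ[ZMod p] L)) = 0 := by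
    funext i
    rcases i with _ | _ | i
    · rfl
    · rfl
    · apply LinearMap.ext; intro x; simp [opT]
  have sq0 := sq 0
  rw [z0] at sq0
  refine ⟨_, inferInstance,
    netGraph (modNet lam (extOp (opX (ZMod p) a) (opT (P := Fin r → ZMod p) ν) (opT (P := L) β))),
    netGraph (modNet lam (extOp (opX (ZMod p) a) (opT (P := Fin r → ZMod p) ν) 0)), _, _, _, _,
    net_srg (modNet_isNet lam _ hl (sq β)), net_srg (modNet_isNet lam _ hl sq0), ?_,
    wlEq_of_strategy lam (strategy β hν ha) le_rfl⟩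
  refine not_iso lam hl _ _ _ none (some none) (by simp [lam, code]) (by simp [lam, code])
    ?_ ?_ (sq β) sq0 ?_ ?_
  · apply LinearMap.ext; intro x; simp [opX, opT]
  · apply LinearMap.ext; intro x; simp [opX, opT]
  · simp only [Fintype.card_option, Fintype.card_fin, Nat.card_prod, Nat.card_fun, Nat.card_zmod,
      Nat.card_eq_fintype_card (α := Fin _)]
    have h1 : 0 < Nat.card L := Nat.card_pos
    have h2 : p ^ 3 ≤ p ^ r := Nat.pow_le_pow_right hp.pos (by omega)
    have h3 : 1 ≤ p ^ (e * r + e * r + 1) := Nat.one_le_pow _ _ hp.pos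
    have h4 : (r + 1 + 1 + 1) * (r + 1 + 1 + 1) ≤ p * p := Nat.mul_le_mul hpr hpr
    have h5 : p * p + 1 < p ^ 3 := by
      have : 3 ≤ p := by omega
      nlinarith
    calc _ < p ^ 3 := by omega
      _ ≤ 1 * 1 * (p ^ r * 1) := by omega
      _ ≤ _ := by gcongr <;> omega
  · rintro ⟨s, hs⟩
    refine hβ ⟨LinearMap.fst _ _ _ ∘ₗ s ∘ₗ LinearMap.inl _ _ _,
      LinearMap.snd _ _ _ ∘ₗ s ∘ₗ LinearMap.inr _ _ _, fun τ => ?_⟩
    have h1 : ∀ j w, β (Pi.single j w) + (s (0, ν (Pi.single j w))).2 = a j * (s (w, 0)).1 := by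
      intro j w
      have := congrArg Prod.snd (hs (some (some j)) (w, 0))
      simpa [opX, opT] using this
    conv_lhs => rw [← Finset.univ_sum_single τ]
    simp only [map_sum, ← Finset.sum_add_distrib]
    exact Finset.sum_congr rfl fun j _ => h1 j (τ j)

end Pool.Agent.H382Z.WL
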