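import Mathlib

/-!
# Graphs of translation nets
-/

set_option linter.unusedSectionVars false

namespace Pool.Agent.H382Z.WL

open Finset

/-- A family of subgroups, any two of which are complementary, all of order `N`. -/
structure IsNet {V ι : Type} [AddCommGroup V] (U : ι → AddSubgroup V) (N : ℕ) : Prop where
  disj : ∀ i j, i ≠ j → ∀ x, x ∈ U i → x ∈ U j → x = 0
  sup : ∀ i j, i ≠ j → ∀ x, ∃ u ∈ U i, ∃ v ∈ U j, x = u + v
  card : ∀ i, Nat.card (U i) = N

/-- The graph of a translation net. -/
def netGraph {V ι : Type} [AddCommGroup V] (U : ι → AddSubgroup V) : SimpleGraph V where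
  Adj x y := x ≠ y ∧ ∃ i, x - y ∈ U i
  symm := ⟨by
    rintro x y ⟨h, i, hi⟩
    exact ⟨h.symm, i, by simpa using (U i).neg_mem hi⟩⟩
  loopless := ⟨fun x h => h.1 rfl⟩

section SRG

variable {V ι : Type} [AddCommGroup V] [Fintype V] [Fintype ι] {U : ι → AddSubgroup V} {N : ℕ}

open Classical in
lemma line_card (h : IsNet U N) (x : V) (i : ι) :
    (univ.filter (fun z => x - z ∈ U i)).card = N := by
  rw [← h.card i, Nat.card_eq_fintype_card, ← Finset.card_univ]
  refine Finset.card_bij (fun z hz => ⟨x - z, (mem_filter.1 hz).2⟩) (fun _ _ => mem_univ _) ?_ ?_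
  · intro a _ b _ hab
    have : x - a = x - b := congrArg Subtype.val hab
    exact sub_right_injective this
  · rintro ⟨u, hu⟩ _
    exact ⟨x - u, by simpa using hu, by simp⟩

open Classical in
lemma meet_card (h : IsNet U N) (x y : V) {i j : ι} (hij : i ≠ j) :
    (univ.filter (fun z => x - z ∈ U i ∧ y - z ∈ U j)).card = 1 := by
  obtain ⟨u, hu, v, hv, huv⟩ := h.sup i j hij (x - y)
  rw [Finset.card_eq_one]
  refine ⟨x - u, ?_⟩
  ext z
  simp only [mem_filter, mem_univ, true_and, mem_singleton]
  constructor
  · rintro ⟨h1, h2⟩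
    have e1 : x - u - z ∈ U i := by
      have := (U i).sub_mem h1 hu
      convert this using 1; abel
    have e2 : x - u - z ∈ U j := by
      have := (U j).add_mem h2 hv
      convert this using 1
      have : x = y + u + v := by rw [add_assoc, ← huv]; abel
      rw [this]; abel
    have := h.disj i j hij _ e1 e2
    exact (sub_eq_zero.1 this).symm
  · rintro rfl
    refine ⟨by simpa using hu, ?_⟩
    have : y - (x - u) = -v := by
      have : x = y + u + v := by rw [add_assoc, ← huv]; abel
      rw [this]; abel
    rw [this]; exact (U j).neg_mem hv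

open Classical in
lemma common_card (h : IsNet U N) (x y : V) :
    Fintype.card ((netGraph U).commonNeighbors x y) =
      ∑ i, ∑ j, (univ.filter (fun z => x ≠ z ∧ y ≠ z ∧ x - z ∈ U i ∧ y - z ∈ U j)).card := by
  rw [← Finset.sum_product', ← Finset.card_biUnion]
  · rw [Fintype.card_of_subtype]
    intro z
    simp only [mem_biUnion, mem_product, mem_univ, true_and, mem_filter, Prod.exists,
      SimpleGraph.mem_commonNeighbors, netGraph]
    constructor
    · rintro ⟨i, j, h1, h2, h3, h4⟩
      exact ⟨⟨h1, i, h3⟩, ⟨h2, j, h4⟩⟩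
    · rintro ⟨⟨h1, i, h3⟩, ⟨h2, j, h4⟩⟩
      exact ⟨i, j, h1, h2, h3, h4⟩
  · rintro ⟨i, j⟩ _ ⟨i', j'⟩ _ hne
    rw [Function.onFun, Finset.disjoint_left]
    intro z hz hz'
    simp only [mem_filter, mem_univ, true_and] at hz hz'
    apply hne
    have hi : i = i' := by
      by_contra hc
      exact hz.1 (sub_eq_zero.1 (h.disj i i' hc _ hz.2.2.1 hz'.2.2.1))
    have hj : j = j' := by
      by_contra hc
      exact hz.2.1 (sub_eq_zero.1 (h.disj j j' hc _ hz.2.2.2 hz'.2.2.2))
    rw [hi, hj]

open Classical in
theorem net_srg (h : IsNet U N) :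
    (netGraph U).IsSRGWith (Fintype.card V) (Fintype.card ι * (N - 1))
      (N - 2 + (Fintype.card ι - 1) * (Fintype.card ι - 2))
      (Fintype.card ι * (Fintype.card ι - 1)) where
  card := rfl
  regular := by
    intro x
    have : (netGraph U).neighborFinset x =
        univ.biUnion (fun i => (univ.filter (fun z => x - z ∈ U i)).erase x) := by
      ext z
      rw [SimpleGraph.mem_neighborFinset]
      simp only [netGraph, mem_biUnion, mem_univ, true_and, mem_erase, mem_filter]
      constructor
      · rintro ⟨h1, i, hi⟩; exact ⟨i, h1.symm, hi⟩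
      · rintro ⟨i, h1, hi⟩; exact ⟨h1.symm, i, hi⟩
    rw [← SimpleGraph.card_neighborFinset_eq_degree, this, Finset.card_biUnion]
    · rw [Finset.sum_congr rfl (g := fun _ => N - 1)]
      · simp
      · intro i _
        rw [Finset.card_erase_of_mem (by simp), line_card h]
    · intro i _ j _ hij
      rw [Function.onFun, Finset.disjoint_left]
      intro z hz hz'
      simp only [mem_erase, mem_filter, mem_univ, true_and] at hz hz'
      exact hz.1 (sub_eq_zero.1 (h.disj i j hij _ hz.2 hz'.2)).symm
  of_adj := by
    rintro x y ⟨hxy, c, hc⟩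
    rw [common_card h]
    have key : ∀ i j, (univ.filter (fun z => x ≠ z ∧ y ≠ z ∧ x - z ∈ U i ∧ y - z ∈ U j)).card
        = if i = c then (if j = c then N - 2 else 0) else (if j = i ∨ j = c then 0 else 1) := by
      intro i j
      split_ifs with h1 h2 h3
      · subst h1 h2
        have : univ.filter (fun z => x ≠ z ∧ y ≠ z ∧ x - z ∈ U j ∧ y - z ∈ U j) =
            ((univ.filter (fun z => x - z ∈ U j)).erase x).erase y := by
          ext z
          simp only [mem_filter, mem_univ, true_and, mem_erase]
          constructor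
          · rintro ⟨a, b, c, _⟩; exact ⟨b.symm, a.symm, c⟩
          · rintro ⟨a, b, c⟩
            refine ⟨b.symm, a.symm, c, ?_⟩
            have := (U j).sub_mem c hc
            convert this using 1; abel
        rw [this, Finset.card_erase_of_mem, Finset.card_erase_of_mem (by simp), line_card h]
        · omega
        · simp only [mem_erase, mem_filter, mem_univ, true_and]
          exact ⟨hxy.symm, hc⟩
      · subst h1
        rw [Finset.card_eq_zero, Finset.filter_eq_empty_iff]
        rintro z _ ⟨_, b, c', d⟩
        have e : y - z ∈ U i := by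
          have := (U i).sub_mem c' hc
          convert this using 1; abel
        exact b (sub_eq_zero.1 (h.disj j i h2 _ d e))
      · rw [Finset.card_eq_zero, Finset.filter_eq_empty_iff]
        rintro z _ ⟨a, b, c', d⟩
        rcases h3 with rfl | rfl
        · have e : x - y ∈ U j := by
            have := (U j).sub_mem c' d
            convert this using 1; abel
          exact hxy (sub_eq_zero.1 (h.disj j c h1 _ e hc))
        · have e : x - z ∈ U j := by
            have := (U j).add_mem hc d
            convert this using 1; abel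
          exact a (sub_eq_zero.1 (h.disj i j h1 _ c' e))
      · push Not at h3
        rw [← meet_card h x y (Ne.symm h3.1)]
        congr 1
        ext z
        simp only [mem_filter, mem_univ, true_and]
        constructor
        · rintro ⟨_, _, c', d⟩; exact ⟨c', d⟩
        · rintro ⟨c', d⟩
          refine ⟨?_, ?_, c', d⟩
          · rintro rfl
            have e : x - y ∈ U j := by simpa using (U j).neg_mem d
            exact hxy (sub_eq_zero.1 (h.disj j c h3.2 _ e hc))
          · rintro rfl
            exact hxy (sub_eq_zero.1 (h.disj i c h1 _ c' hc))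
    simp_rw [key]
    rw [← Finset.add_sum_erase _ _ (mem_univ c)]
    congr 1
    · simp
    · rw [Finset.sum_congr rfl (g := fun _ => Fintype.card ι - 2)]
      · simp [Finset.card_erase_of_mem]
      · intro i hi
        have hic : i ≠ c := (mem_erase.1 hi).1
        simp only [hic, if_false]
        rw [← Finset.add_sum_erase _ _ (mem_univ i),
          ← Finset.add_sum_erase _ _ (mem_erase.2 ⟨hic.symm, mem_univ c⟩)]
        rw [Finset.sum_congr rfl (g := fun _ => 1)]
        · simp [Finset.card_erase_of_mem, hic.symm]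
          omega
        · intro j hj
          simp only [mem_erase] at hj
          simp [hj.1, hj.2.1]
  of_not_adj := by
    intro x y hxy hn
    rw [common_card h]
    have hn' : ∀ i, x - y ∉ U i := fun i hi => hn ⟨hxy, i, hi⟩
    have key : ∀ i j, (univ.filter (fun z => x ≠ z ∧ y ≠ z ∧ x - z ∈ U i ∧ y - z ∈ U j)).card
        = if j = i then 0 else 1 := by
      intro i j
      split_ifs with h1
      · subst h1
        rw [Finset.card_eq_zero, Finset.filter_eq_empty_iff]
        rintro z _ ⟨a, b, c', d⟩
        apply hn' j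
        have := (U j).sub_mem c' d
        convert this using 1; abel
      · rw [← meet_card h x y (Ne.symm h1)]
        congr 1
        ext z
        simp only [mem_filter, mem_univ, true_and]
        constructor
        · rintro ⟨_, _, c', d⟩; exact ⟨c', d⟩
        · rintro ⟨c', d⟩
          refine ⟨?_, ?_, c', d⟩
          · rintro rfl
            exact hn' j (by simpa using (U j).neg_mem d)
          · rintro rfl
            exact hn' i c'
    simp_rw [key]
    rw [Finset.sum_congr rfl (g := fun _ => Fintype.card ι - 1)]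
    · simp
    · intro i _
      rw [← Finset.add_sum_erase _ _ (mem_univ i)]
      rw [Finset.sum_congr rfl (g := fun _ => 1)]
      · simp [Finset.card_erase_of_mem]
      · intro j hj
        simp [(mem_erase.1 hj).1]

end SRG

section Iso

variable {V ι : Type} [AddCommGroup V] [Fintype V] [Fintype ι] {U U' : ι → AddSubgroup V} {N : ℕ}

open Classical in
/-- A large clique lies on a line. -/
lemma clique_on_line (h : IsNet U N) (K : Finset V) (hK : ∀ a ∈ K, ∀ b ∈ K, a ≠ b →
    (netGraph U).Adj a b) (hc : Fintype.card ι * Fintype.card ι + 1 < K.card) {x : V}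
    (hx : x ∈ K) : ∃ i, ∀ z ∈ K, x - z ∈ U i := by
  by_contra hcon
  push Not at hcon
  have h1 : ∀ i, (K.filter (fun z => x - z ∈ U i)).card ≤ Fintype.card ι := by
    intro i
    obtain ⟨z, hz, hzi⟩ := hcon i
    have hsub : K.filter (fun w => x - w ∈ U i) ⊆ (univ.erase i).biUnion
        (fun j => univ.filter (fun w => x - w ∈ U i ∧ z - w ∈ U j)) := by
      intro w hw
      simp only [mem_filter] at hw
      have hzw : z ≠ w := by
        rintro rfl; exact hzi hw.2
      obtain ⟨_, j, hj⟩ := hK z hz w hw.1 hzw
      simp only [mem_biUnion, mem_erase, mem_univ, and_true, mem_filter, true_and]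
      refine ⟨j, ?_, hw.2, hj⟩
      rintro rfl
      apply hzi
      have := (U j).sub_mem hw.2 hj
      convert this using 1; abel
    refine (Finset.card_le_card hsub).trans (Finset.card_biUnion_le.trans ?_)
    rw [Finset.sum_congr rfl (g := fun _ => 1)]
    · simp [Finset.card_erase_of_mem]
    · intro j hj
      exact meet_card h x z (mem_erase.1 hj).1.symm
  have h2 : K ⊆ insert x (univ.biUnion (fun i => K.filter (fun z => x - z ∈ U i))) := by
    intro z hz
    by_cases hzx : z = x
    · simp [hzx]
    · obtain ⟨_, i, hi⟩ := hK x hx z hz (Ne.symm hzx)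
      simp only [mem_insert, mem_biUnion, mem_univ, true_and, mem_filter]
      exact Or.inr ⟨i, hz, hi⟩
  have h3 := (Finset.card_le_card h2).trans (Finset.card_insert_le _ _)
  have h4 : (univ.biUnion (fun i => K.filter (fun z => x - z ∈ U i))).card
      ≤ Fintype.card ι * Fintype.card ι := by
    refine Finset.card_biUnion_le.trans ?_
    refine (Finset.sum_le_sum (fun i _ => h1 i)).trans ?_
    simp
  omega

open Classical in
lemma iso_line (h : IsNet U N) (h' : IsNet U' N) (hN : Fintype.card ι * Fintype.card ι + 1 < N)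
    (f : netGraph U ≃g netGraph U') (x : V) (i : ι) :
    ∃ j, ∀ z, x - z ∈ U i ↔ f x - f z ∈ U' j := by
  set K := (univ.filter (fun z => x - z ∈ U i)).image f with hKdef
  have hKc : K.card = N := by
    rw [hKdef, Finset.card_image_of_injective _ f.injective, line_card h]
  obtain ⟨j, hj⟩ := clique_on_line h' K (by
    intro a ha b hb hab
    simp only [hKdef, mem_image, mem_filter, mem_univ, true_and] at ha hb
    obtain ⟨a, ha, rfl⟩ := ha
    obtain ⟨b, hb, rfl⟩ := hb
    rw [f.map_adj_iff]
    refine ⟨fun e => hab (by rw [e]), i, ?_⟩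
    have := (U i).sub_mem hb ha
    convert this using 1; abel) (by rw [hKc]; exact hN) (x := f x) (by
      simp only [hKdef, mem_image, mem_filter, mem_univ, true_and]
      exact ⟨x, by simp, rfl⟩)
  have hsub : K ⊆ univ.filter (fun z => f x - z ∈ U' j) := by
    intro z hz
    simp only [mem_filter, mem_univ, true_and]
    exact hj z hz
  have heq : K = univ.filter (fun z => f x - z ∈ U' j) :=
    Finset.eq_of_subset_of_card_le hsub (by rw [hKc, line_card h'])
  refine ⟨j, fun z => ⟨fun hz => hj _ ?_, fun hz => ?_⟩⟩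
  · simp only [hKdef, mem_image, mem_filter, mem_univ, true_and]
    exact ⟨z, hz, rfl⟩
  · have : f z ∈ K := by rw [heq]; simpa using hz
    simp only [hKdef, mem_image, mem_filter, mem_univ, true_and] at this
    obtain ⟨w, hw, hwz⟩ := this
    rw [← f.injective hwz]; exact hw

lemma exists_ne_zero (h : IsNet U N) (hN : 1 < N) (i : ι) : ∃ u ∈ U i, u ≠ 0 := by
  have : Nontrivial (U i) := by
    rw [← Finite.one_lt_card_iff_nontrivial, h.card i]; exact hN
  obtain ⟨⟨u, hu⟩, hne⟩ := exists_ne (0 : U i)
  exact ⟨u, hu, fun e => hne (Subtype.ext e)⟩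

open Classical in
lemma iso_perm (h : IsNet U N) (h' : IsNet U' N) (hN : Fintype.card ι * Fintype.card ι + 1 < N)
    (f : netGraph U ≃g netGraph U') :
    ∃ π : ι → ι, Function.Injective π ∧ ∀ i x z, x - z ∈ U i ↔ f x - f z ∈ U' (π i) := by
  choose π hπ using iso_line h h' hN f
  have hN1 : 1 < N := by omega
  have hsame : ∀ x i, π x i = π 0 i := by
    intro x i
    by_contra hne
    have hc := meet_card h' (f x) (f 0) hne
    obtain ⟨w, hw⟩ := Finset.card_eq_one.1 hc
    have hwm : w ∈ univ.filter (fun z => f x - z ∈ U' (π x i) ∧ f 0 - z ∈ U' (π 0 i)) := by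
      rw [hw]; simp
    obtain ⟨z, rfl⟩ := f.surjective w
    simp only [mem_filter, mem_univ, true_and] at hwm
    have a1 := (hπ x i z).2 hwm.1
    have a2 := (hπ 0 i z).2 hwm.2
    obtain ⟨u, hu, hu0⟩ := exists_ne_zero h hN1 i
    have b1 : x - (z + u) ∈ U i := by
      have := (U i).sub_mem a1 hu
      convert this using 1; abel
    have b2 : 0 - (z + u) ∈ U i := by
      have := (U i).sub_mem a2 hu
      convert this using 1; abel
    have : f (z + u) ∈ univ.filter (fun z => f x - z ∈ U' (π x i) ∧ f 0 - z ∈ U' (π 0 i)) := by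
      simp only [mem_filter, mem_univ, true_and]
      exact ⟨(hπ x i _).1 b1, (hπ 0 i _).1 b2⟩
    rw [hw, mem_singleton] at this
    exact hu0 (by simpa using f.injective this)
  refine ⟨π 0, ?_, fun i x z => by rw [← hsame x i]; exact hπ x i z⟩
  intro i j hij
  by_contra hne
  obtain ⟨u, hu, hu0⟩ := exists_ne_zero h hN1 i
  have a1 : (0 : V) - (-u) ∈ U i := by simpa using hu
  have a2 := (hπ 0 i _).1 a1
  rw [hij] at a2
  have a3 := (hπ 0 j _).2 a2
  exact hu0 (h.disj i j hne u hu (by simpa using a3))

/-- An isomorphism of the graphs of two translation nets of degree at least three and large order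
gives an isomorphism of the groups which permutes the subgroups. -/
theorem iso_additive (h : IsNet U N) (h' : IsNet U' N)
    (hN : Fintype.card ι * Fintype.card ι + 1 < N) (h3 : ∀ i : ι, ∃ j l, i ≠ j ∧ i ≠ l ∧ j ≠ l)
    [Nonempty ι] (f : netGraph U ≃g netGraph U') :
    ∃ (g : V ≃+ V) (π : ι ≃ ι), ∀ i x, x ∈ U i ↔ g x ∈ U' (π i) := by
  obtain ⟨π, hinj, hπ⟩ := iso_perm h h' hN f
  let g : V → V := fun x => f x - f 0
  have hg : ∀ i x, x ∈ U i ↔ g x ∈ U' (π i) := by
    intro i x
    have := hπ i x 0
    rwa [sub_zero] at this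
  have h2 : ∀ i j, i ≠ j → ∀ u ∈ U i, ∀ v ∈ U j, g (u + v) = g u + g v := by
    intro i j hij u hu v hv
    have a1 : f (u + v) - f u ∈ U' (π j) := (hπ j _ _).1 (by simpa using hv)
    have a2 : f (u + v) - f v ∈ U' (π i) := (hπ i _ _).1 (by simpa using hu)
    have a3 := (hg i u).1 hu
    have a4 := (hg j v).1 hv
    have e : g (u + v) - (g u + g v) = 0 := by
      apply h'.disj (π i) (π j) (fun e => hij (hinj e))
      · have := (U' (π i)).sub_mem a2 a3
        convert this using 1; simp only [g]; abel
      · have := (U' (π j)).sub_mem a1 a4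
        convert this using 1; simp only [g]; abel
    exact sub_eq_zero.1 e
  have h1 : ∀ i, ∀ u ∈ U i, ∀ u' ∈ U i, g (u' + u) = g u' + g u := by
    intro i u hu u' hu'
    obtain ⟨j, l, hij, hil, hjl⟩ := h3 i
    obtain ⟨v, hv, w, hw, huvw⟩ := h.sup j l hjl u
    have a1 := h2 i j hij (u' + u) ((U i).add_mem hu' hu) (-v) ((U j).neg_mem hv)
    have a2 := h2 i l hil u' hu' w hw
    have a3 := h2 i j hij u hu (-v) ((U j).neg_mem hv)
    have e1 : u' + u + -v = u' + w := by rw [huvw]; abel
    have e2 : u + -v = w := by rw [huvw]; abel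
    rw [e1, a2] at a1
    rw [e2] at a3
    rw [a3, ← add_assoc] at a1
    exact (add_right_cancel a1).symm
  have hadd : ∀ x y, g (x + y) = g x + g y := by
    intro x y
    obtain ⟨i⟩ := ‹Nonempty ι›
    obtain ⟨j, _, hij, _, _⟩ := h3 i
    obtain ⟨u, hu, v, hv, rfl⟩ := h.sup i j hij x
    obtain ⟨u', hu', v', hv', rfl⟩ := h.sup i j hij y
    have e : u + v + (u' + v') = (u + u') + (v + v') := by abel
    rw [e, h2 i j hij _ ((U i).add_mem hu hu') _ ((U j).add_mem hv hv'), h1 i u' hu' u hu,
      h1 j v' hv' v hv, h2 i j hij u hu v hv, h2 i j hij u' hu' v' hv']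
    abel
  have hbij : Function.Bijective g :=
    (Equiv.subRight (f 0)).bijective.comp f.toEquiv.bijective
  exact ⟨AddEquiv.ofBijective (AddMonoidHom.mk' g hadd) hbij,
    Equiv.ofBijective π (Finite.injective_iff_bijective.1 hinj), hg⟩

/-- The additive maps preserving every member of the family. -/
def netEnd {V ι : Type} [AddCommGroup V] (U : ι → AddSubgroup V) : Set (V →+ V) :=
  {φ | ∀ i x, x ∈ U i → φ x ∈ U i}

theorem netEnd_card_eq (h : IsNet U N) (h' : IsNet U' N)
    (hN : Fintype.card ι * Fintype.card ι + 1 < N) (h3 : ∀ i : ι, ∃ j l, i ≠ j ∧ i ≠ l ∧ j ≠ l)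
    [Nonempty ι] (f : netGraph U ≃g netGraph U') :
    Nat.card (netEnd U') ≤ Nat.card (netEnd U) := by
  obtain ⟨g, π, hg⟩ := iso_additive h h' hN h3 f
  have : Finite (V →+ V) := Finite.of_injective _ DFunLike.coe_injective
  refine Nat.card_le_card_of_injective
    (fun φ : netEnd U' => (⟨g.symm.toAddMonoidHom.comp (φ.1.comp g.toAddMonoidHom), ?_⟩ :
      netEnd U)) ?_
  · intro i x hx
    rw [hg]
    simpa using φ.2 (π i) _ ((hg i x).1 hx)
  · intro φ ψ hφψ
    apply Subtype.ext
    ext x
    have := congrArg (fun (χ : netEnd U) => g (χ.1 (g.symm x))) hφψ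
    simpa using this

end Iso

end Pool.Agent.H382Z.WL
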